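import Mathlib

set_option autoImplicit false

/-!
# Progression-free sets of bounded VC dimension
-/

namespace Pool.Agent.R740.BVC

open Finset

section traces
variable {α ι : Type} [DecidableEq α] [DecidableEq ι]

/-- the number of subsets of an `m`-element set with at most `d` elements -/
def phi (m d : ℕ) : ℕ := ∑ i ∈ range (d + 1), m.choose i

theorem phi_mono {m m' : ℕ} (h : m ≤ m') (d : ℕ) : phi m d ≤ phi m' d :=
  sum_le_sum fun i _ => Nat.choose_le_choose i h

/-- every set shattered by the family has at most `d` elements -/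
def VCle (I : Finset ι) (F : ι → Finset α) (d : ℕ) : Prop :=
  ∀ S : Finset α, (∀ T ⊆ S, ∃ i ∈ I, S ∩ F i = T) → S.card ≤ d

theorem card_small (S : Finset α) (d : ℕ) :
    (S.powerset.filter fun T => T.card ≤ d).card = phi S.card d := by
  have h : (S.powerset.filter fun T => T.card ≤ d) =
      (range (d + 1)).biUnion fun i => S.powersetCard i := by
    ext T
    simp only [mem_filter, mem_powerset, mem_biUnion, mem_range, mem_powersetCard]
    constructor
    · rintro ⟨h1, h2⟩
      exact ⟨T.card, by omega, h1, rfl⟩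
    · rintro ⟨i, hi, h1, h2⟩
      exact ⟨h1, by omega⟩
  rw [h, card_biUnion]
  · exact sum_congr rfl fun i _ => by rw [card_powersetCard]
  · intro i _ j _ hij
    rw [Function.onFun, disjoint_left]
    intro T h1 h2
    rw [mem_powersetCard] at h1 h2
    exact hij (h1.2.symm.trans h2.2)

/-- sets with distinct traces on a small set -/
theorem card_le_phi {I : Finset ι} {F : ι → Finset α} {d : ℕ} (hVC : VCle I F d)
    (S : Finset α) (hinj : ∀ i ∈ I, ∀ j ∈ I, i ≠ j → S ∩ F i ≠ S ∩ F j) :
    I.card ≤ phi S.card d := by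
  classical
  let 𝒜 : Finset (Finset α) := I.image fun i => S ∩ F i
  have hc : 𝒜.card = I.card := by
    apply card_image_of_injOn
    intro i hi j hj hij
    by_contra hne
    exact hinj i hi j hj hne hij
  rw [← hc, ← card_small]
  refine (card_le_card_shatterer 𝒜).trans (card_le_card ?_)
  intro T hT
  rw [mem_shatterer] at hT
  have hTS : T ⊆ S := by
    obtain ⟨u, hu, h1⟩ := hT (Subset.refl T)
    obtain ⟨i, _, rfl⟩ := mem_image.1 hu
    intro x hx
    have : x ∈ T ∩ (S ∩ F i) := by rw [h1]; exact hx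
    exact (mem_inter.1 (mem_inter.1 this).2).1
  rw [mem_filter, mem_powerset]
  refine ⟨hTS, hVC T fun R hR => ?_⟩
  obtain ⟨u, hu, h1⟩ := hT hR
  obtain ⟨i, hi, rfl⟩ := mem_image.1 hu
  refine ⟨i, hi, ?_⟩
  rw [← h1]
  ext x
  simp only [mem_inter]
  exact ⟨fun h => ⟨h.1, hTS h.1, h.2⟩, fun h => ⟨h.1, h.2.2⟩⟩

omit [DecidableEq ι] in
/-- random sampling -/
theorem exists_sample {I : Finset ι} {F : ι → Finset α} {X : Finset α} {D m : ℕ}
    (hsep : ∀ i ∈ I, ∀ j ∈ I, i ≠ j → D ≤ (X ∩ symmDiff (F i) (F j)).card)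
    (hm : I.card * (I.card - 1) * (X.card - D) ^ m < X.card ^ m) :
    ∃ S ⊆ X, S.card ≤ m ∧ ∀ i ∈ I, ∀ j ∈ I, i ≠ j → S ∩ F i ≠ S ∩ F j := by
  classical
  let Ω : Finset (Fin m → α) := Fintype.piFinset fun _ => X
  have hΩ : Ω.card = X.card ^ m := by simp [Ω]
  let bad : ι × ι → Finset (Fin m → α) := fun q =>
    Fintype.piFinset fun _ => X \ symmDiff (F q.1) (F q.2)
  have hbad : ∀ q ∈ I.offDiag, (bad q).card ≤ (X.card - D) ^ m := by
    intro q hq
    rw [mem_offDiag] at hq
    have h1 := hsep q.1 hq.1 q.2 hq.2.1 hq.2.2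
    simp only [bad, Fintype.card_piFinset, prod_const, card_univ, Fintype.card_fin]
    apply Nat.pow_le_pow_left
    rw [card_sdiff, inter_comm]
    omega
  have h2 : (I.offDiag.biUnion bad).card < Ω.card := by
    calc (I.offDiag.biUnion bad).card ≤ ∑ q ∈ I.offDiag, (bad q).card := card_biUnion_le
      _ ≤ ∑ q ∈ I.offDiag, (X.card - D) ^ m := sum_le_sum hbad
      _ = I.card * (I.card - 1) * (X.card - D) ^ m := by
          rw [sum_const, offDiag_card, smul_eq_mul, Nat.mul_sub, mul_one]
      _ < Ω.card := by rw [hΩ]; exact hm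
  obtain ⟨f, hf1, hf2⟩ := exists_mem_notMem_of_card_lt_card h2
  have hfX : ∀ t, f t ∈ X := fun t => (Fintype.mem_piFinset.1 hf1) t
  refine ⟨univ.image f, ?_, ?_, ?_⟩
  · intro x hx
    obtain ⟨t, _, rfl⟩ := mem_image.1 hx
    exact hfX t
  · exact card_image_le.trans (by simp)
  · intro i hi j hj hij heq
    apply hf2
    rw [mem_biUnion]
    refine ⟨(i, j), mem_offDiag.2 ⟨hi, hj, hij⟩, ?_⟩
    rw [Fintype.mem_piFinset]
    intro t
    rw [mem_sdiff]
    refine ⟨hfX t, fun hcon => ?_⟩
    have hS : f t ∈ univ.image f := mem_image_of_mem f (mem_univ t)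
    have h3 : f t ∈ (univ.image f) ∩ F i ↔ f t ∈ (univ.image f) ∩ F j := by rw [heq]
    rw [mem_inter, mem_inter] at h3
    rw [mem_symmDiff] at hcon
    tauto

end traces

section numeric

theorem phi_le_pow {m d : ℕ} (hd : 1 ≤ d) (hm : d ≤ m) :
    (phi m d : ℝ) ≤ (Real.exp 1 * m / d) ^ d := by
  have hd' : (0 : ℝ) < d := by exact_mod_cast hd
  have hm' : (0 : ℝ) < m := by exact_mod_cast (lt_of_lt_of_le hd hm)
  set q : ℝ := (d : ℝ) / m with hq
  have hq0 : 0 < q := by positivity
  have hq1 : q ≤ 1 := by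
    rw [hq, div_le_one hm']
    exact_mod_cast hm
  have h1 : (phi m d : ℝ) * q ^ d ≤ (1 + q) ^ m := by
    have h2 : (1 + q) ^ m = ∑ i ∈ range (m + 1), (m.choose i : ℝ) * q ^ i := by
      rw [add_comm, add_pow]
      exact sum_congr rfl fun i _ => by rw [one_pow, mul_one, mul_comm]
    rw [h2, phi, Nat.cast_sum, sum_mul]
    calc ∑ i ∈ range (d + 1), (m.choose i : ℝ) * q ^ d
        ≤ ∑ i ∈ range (d + 1), (m.choose i : ℝ) * q ^ i := by
          apply sum_le_sum
          intro i hi
          apply mul_le_mul_of_nonneg_left _ (Nat.cast_nonneg _)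
          exact pow_le_pow_of_le_one hq0.le hq1 (by rw [mem_range] at hi; omega)
      _ ≤ _ := by
          apply sum_le_sum_of_subset_of_nonneg
          · exact range_subset_range.2 (by omega)
          · intro i _ _
            positivity
  have h2 : (1 + q) ^ m ≤ Real.exp d := by
    calc (1 + q) ^ m ≤ (Real.exp q) ^ m := by
          apply pow_le_pow_left₀ (by positivity)
          have := Real.add_one_le_exp q
          linarith
      _ = Real.exp d := by
          rw [← Real.exp_nat_mul]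
          congr 1
          rw [hq]
          field_simp
  have h3 : (Real.exp 1 * m / d) ^ d * q ^ d = Real.exp d := by
    rw [← mul_pow]
    have : Real.exp 1 * m / d * q = Real.exp 1 := by
      rw [hq]
      field_simp
    rw [this, ← Real.exp_nat_mul, mul_one]
  have h4 : 0 < q ^ d := by positivity
  by_contra hcon
  push Not at hcon
  have := mul_lt_mul_of_pos_right hcon h4
  linarith

/-- the numerical conclusion -/
theorem numeric {N M D d : ℕ} (hd : 1 ≤ d) (hN : 1 ≤ N) (hD : D ≤ M) (hM : 1 ≤ M)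
    (h : ∀ m : ℕ, N * (N - 1) * (M - D) ^ m < M ^ m → N ≤ phi m d) :
    (D : ℝ) ≤ 20 * (1 + Real.log N / d) * (N : ℝ) ^ (-(1 / d : ℝ)) * M := by
  have hd' : (1 : ℝ) ≤ d := by exact_mod_cast hd
  have hN' : (1 : ℝ) ≤ N := by exact_mod_cast hN
  have hM' : (1 : ℝ) ≤ M := by exact_mod_cast hM
  have hDM : (D : ℝ) ≤ M := by exact_mod_cast hD
  have hlog : 0 ≤ Real.log N := Real.log_nonneg hN'
  set r : ℝ := (N : ℝ) ^ (1 / d : ℝ) with hr
  have hr0 : 0 < r := by positivity
  have hrd : r ^ d = N := by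
    rw [hr, ← Real.rpow_natCast, ← Real.rpow_mul (by positivity)]
    have : (1 / (d : ℝ)) * (d : ℕ) = 1 := by field_simp
    rw [this, Real.rpow_one]
  have hneg : (N : ℝ) ^ (-(1 / d : ℝ)) = r⁻¹ := by
    rw [hr, Real.rpow_neg (by positivity)]
  rw [hneg]
  -- reduce to `D r ≤ 20 (1 + log N / d) M`
  suffices hmain : (D : ℝ) * r ≤ 20 * (1 + Real.log N / d) * M by
    have : (D : ℝ) = D * r * r⁻¹ := by field_simp
    rw [this]
    calc (D : ℝ) * r * r⁻¹ ≤ (20 * (1 + Real.log N / d) * M) * r⁻¹ :=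
          mul_le_mul_of_nonneg_right hmain (by positivity)
      _ = _ := by ring
  have hl0 : 0 ≤ Real.log N / d := by positivity
  by_cases hr4 : r ≤ 4
  · have h1 : (D : ℝ) * r ≤ M * 4 := mul_le_mul hDM hr4 hr0.le (by positivity)
    nlinarith [mul_nonneg hl0 (by linarith : (0 : ℝ) ≤ M)]
  push Not at hr4
  rcases Nat.eq_zero_or_pos D with hD0 | hD0
  · rw [hD0, Nat.cast_zero, zero_mul]
    positivity
  have hD0' : (0 : ℝ) < D := by exact_mod_cast hD0
  set ε : ℝ := (D : ℝ) / M with hε
  have hε0 : 0 < ε := by positivity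
  have hε1 : ε ≤ 1 := by rw [hε, div_le_one (by linarith)]; exact hDM
  set m : ℕ := ⌈2 * Real.log N / ε⌉₊ with hm
  have hm1 : 2 * Real.log N / ε ≤ m := Nat.le_ceil _
  have hm2 : (m : ℝ) < 2 * Real.log N / ε + 1 := Nat.ceil_lt_add_one (by positivity)
  have hkey : N * (N - 1) * (M - D) ^ m < M ^ m := by
    have h1 : (1 - ε) ^ m ≤ ((N : ℝ) ^ 2)⁻¹ := by
      calc (1 - ε) ^ m ≤ (Real.exp (-ε)) ^ m := by
            apply pow_le_pow_left₀ (by linarith)
            have := Real.add_one_le_exp (-ε)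
            linarith
        _ = Real.exp (-(m * ε)) := by
            rw [← Real.exp_nat_mul]
            congr 1
            ring
        _ ≤ Real.exp (-(2 * Real.log N)) := by
            apply Real.exp_le_exp.2
            have := (div_le_iff₀ hε0).1 hm1
            linarith
        _ = ((N : ℝ) ^ 2)⁻¹ := by
            rw [Real.exp_neg]
            congr 1
            rw [two_mul, Real.exp_add, Real.exp_log (by linarith), sq]
    have h2 : ((M - D : ℕ) : ℝ) = M * (1 - ε) := by
      rw [Nat.cast_sub hD, hε]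
      field_simp
    have h3 : ((N * (N - 1) * (M - D) ^ m : ℕ) : ℝ) < ((M ^ m : ℕ) : ℝ) := by
      push_cast [Nat.cast_sub hN]
      rw [h2, mul_pow]
      have hMm : (0 : ℝ) < (M : ℝ) ^ m := by positivity
      have h4 : (N : ℝ) * (N - 1) * (1 - ε) ^ m < 1 := by
        have hNN : (0 : ℝ) ≤ (N : ℝ) * (N - 1) := mul_nonneg (by linarith) (by linarith)
        calc (N : ℝ) * (N - 1) * (1 - ε) ^ m ≤ (N : ℝ) * (N - 1) * ((N : ℝ) ^ 2)⁻¹ :=
              mul_le_mul_of_nonneg_left h1 hNN
          _ < (N : ℝ) ^ 2 * ((N : ℝ) ^ 2)⁻¹ := by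
              apply mul_lt_mul_of_pos_right _ (by positivity)
              nlinarith
          _ = 1 := by field_simp
      calc (N : ℝ) * (N - 1) * ((M : ℝ) ^ m * (1 - ε) ^ m)
          = (M : ℝ) ^ m * ((N : ℝ) * (N - 1) * (1 - ε) ^ m) := by ring
        _ < (M : ℝ) ^ m * 1 := mul_lt_mul_of_pos_left h4 hMm
        _ = _ := mul_one _
    exact_mod_cast h3
  have hNphi := h m hkey
  -- `d ≤ m`
  have hdm : d ≤ m := by
    by_contra hcon
    push Not at hcon
    have h1 : phi m d ≤ 2 ^ m := by
      rw [phi, ← Nat.sum_range_choose]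
      have : ∑ i ∈ range (d + 1), m.choose i = ∑ i ∈ range (m + 1), m.choose i := by
        symm
        apply sum_subset (range_subset_range.2 (by omega))
        intro i _ hi
        rw [mem_range, not_lt] at hi
        exact Nat.choose_eq_zero_of_lt (by omega)
      rw [this]
    have h2 : (N : ℝ) ≤ 2 ^ d := by
      calc (N : ℝ) ≤ ((2 ^ m : ℕ) : ℝ) := by exact_mod_cast hNphi.trans h1
        _ = 2 ^ m := by push_cast; rfl
        _ ≤ 2 ^ d := pow_le_pow_right₀ (by norm_num) hcon.le
    rw [← hrd] at h2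
    have h3 := le_of_pow_le_pow_left₀ (by omega) (by norm_num) h2
    linarith
  have h5 : (N : ℝ) ≤ (Real.exp 1 * m / d) ^ d :=
    (by exact_mod_cast hNphi : (N : ℝ) ≤ phi m d).trans (phi_le_pow hd hdm)
  rw [← hrd] at h5
  have h6 : r ≤ Real.exp 1 * m / d := le_of_pow_le_pow_left₀ (by omega) (by positivity) h5
  have he : Real.exp 1 < 2.7182818286 := Real.exp_one_lt_d9
  have he0 : 0 < Real.exp 1 := Real.exp_pos 1
  have h7 : r * d ≤ Real.exp 1 * (2 * Real.log N / ε + 1) := by
    have h8 : r * d ≤ Real.exp 1 * m := by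
      rw [le_div_iff₀ (by linarith)] at h6
      exact h6
    exact h8.trans (mul_le_mul_of_nonneg_left hm2.le he0.le)
  -- multiply by ε
  have h9 : r * d * ε ≤ Real.exp 1 * (2 * Real.log N + ε) := by
    calc r * d * ε ≤ Real.exp 1 * (2 * Real.log N / ε + 1) * ε :=
          mul_le_mul_of_nonneg_right h7 hε0.le
      _ = _ := by field_simp
  have h10 : r * d * ε ≤ 2.7182818286 * (2 * Real.log N + ε) := by
    refine h9.trans (mul_le_mul_of_nonneg_right he.le (by positivity))
  have h11 : (r - 2.7182818286) * ε * d ≤ 2.7182818286 * 2 * Real.log N := by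
    have : ε ≤ ε * d := by nlinarith
    nlinarith
  have h12 : r * ε * d ≤ 20 * Real.log N := by
    have h13 : r * (1 - 2.7182818286 / 4) ≤ r - 2.7182818286 := by nlinarith
    have h14 : r * (1 - 2.7182818286 / 4) * ε * d ≤ 2.7182818286 * 2 * Real.log N := by
      refine le_trans ?_ h11
      apply mul_le_mul_of_nonneg_right _ (by linarith)
      exact mul_le_mul_of_nonneg_right h13 hε0.le
    have h15 : 0 ≤ r * ε * d := by positivity
    nlinarith
  have h16 : r * ε ≤ 20 * (Real.log N / d) := by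
    have e16 : 20 * (Real.log N / d) = 20 * Real.log N / d := by ring
    rw [e16, le_div_iff₀ (by linarith)]
    exact h12
  calc (D : ℝ) * r = (r * ε) * M := by rw [hε]; field_simp
    _ ≤ (20 * (Real.log N / d)) * M := mul_le_mul_of_nonneg_right h16 (by linarith)
    _ ≤ 20 * (1 + Real.log N / d) * M := by nlinarith

end numeric

end Pool.Agent.R740.BVC
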