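import Pool.Agent.R740.BVC

set_option autoImplicit false

/-!
# Progression-free sets of bounded VC dimension: groups
-/

namespace Pool.Agent.R740.BVC

open Finset

section group
variable {G : Type} [AddCommGroup G] [DecidableEq G]

/-- every set shattered by the translates `B + h`, `h ∈ H`, has at most `d` elements -/
def TransVC (H B : Finset G) (d : ℕ) : Prop :=
  ∀ S : Finset G, (∀ T ⊆ S, ∃ h ∈ H, ∀ s ∈ S, s ∈ T ↔ s - h ∈ B) → S.card ≤ d

/-- the translate -/
def tr (B : Finset G) (h : G) : Finset G := B.map (addRightEmbedding h)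

omit [DecidableEq G] in
theorem mem_tr {B : Finset G} {h x : G} : x ∈ tr B h ↔ x - h ∈ B := by
  rw [tr, mem_map]
  constructor
  · rintro ⟨b, hb, rfl⟩
    simpa using hb
  · intro hx
    exact ⟨x - h, hx, by simp⟩

omit [DecidableEq G] in
theorem card_tr (B : Finset G) (h : G) : (tr B h).card = B.card := card_map _

theorem TransVC.vcle {H B : Finset G} {d : ℕ} (hV : TransVC H B d) : VCle H (tr B) d := by
  intro S hS
  apply hV S
  intro T hT
  obtain ⟨h, hh, h1⟩ := hS T hT
  refine ⟨h, hh, fun s hs => ?_⟩
  rw [← h1, mem_inter, mem_tr]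
  exact ⟨fun h => h.2, fun h => ⟨hs, h⟩⟩

/-- the points of `A` left by the translation by `y` -/
def exits (A : Finset G) (y : G) : Finset G := A.filter fun a => a + y ∉ A

theorem mem_exits {A : Finset G} {y a : G} : a ∈ exits A y ↔ a ∈ A ∧ a + y ∉ A := by
  rw [exits, mem_filter]

/-- the points of `A` that do not start a progression are few -/
theorem card_fail (A : Finset G) (k : ℕ) (y : G) :
    (A.filter fun x => ¬ ∀ j < k, x + j • y ∈ A).card ≤ (k - 1) * (exits A y).card := by
  classical
  have hsub : (A.filter fun x => ¬ ∀ j < k, x + j • y ∈ A) ⊆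
      (range (k - 1)).biUnion fun i => (exits A y).image fun b => b - i • y := by
    intro x hx
    obtain ⟨hxA, hx2⟩ := mem_filter.1 hx
    push Not at hx2
    have hex : ∃ j : ℕ, x + j • y ∉ A := by
      obtain ⟨j, _, hj⟩ := hx2
      exact ⟨j, hj⟩
    obtain ⟨j0, hj0, hj0'⟩ := hx2
    have h1 := Nat.find_spec hex
    have h2 := fun {m : ℕ} => Nat.find_min hex (m := m)
    have h3 : Nat.find hex ≤ j0 := Nat.find_min' hex hj0'
    have h4 : Nat.find hex ≠ 0 := by
      intro h0
      rw [h0] at h1
      apply h1
      simpa using hxA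
    obtain ⟨i, hi⟩ : ∃ i, Nat.find hex = i + 1 := ⟨Nat.find hex - 1, by omega⟩
    rw [mem_biUnion]
    refine ⟨i, mem_range.2 (by omega), mem_image.2 ⟨x + i • y, mem_exits.2 ⟨?_, ?_⟩, ?_⟩⟩
    · have := h2 (m := i) (by omega)
      exact not_not.1 this
    · rw [hi, add_smul, one_smul, ← add_assoc] at h1
      exact h1
    · simp
  calc _ ≤ ((range (k - 1)).biUnion fun i => (exits A y).image fun b => b - i • y).card :=
        card_le_card hsub
    _ ≤ ∑ i ∈ range (k - 1), ((exits A y).image fun b => b - i • y).card := card_biUnion_le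
    _ ≤ ∑ i ∈ range (k - 1), (exits A y).card := sum_le_sum fun i _ => card_image_le
    _ = _ := by rw [sum_const, card_range, smul_eq_mul]

/-- symmetric difference of translates -/
theorem card_symm_tr (A : Finset G) (h h' : G) :
    (symmDiff (tr A h) (tr A h')).card = (exits A (h - h')).card + (exits A (h' - h)).card := by
  have e1 : tr A h \ tr A h' = (exits A (h - h')).map (addRightEmbedding h) := by
    ext x
    rw [mem_sdiff, mem_tr, mem_tr, mem_map]
    constructor
    · rintro ⟨h1, h2⟩
      refine ⟨x - h, mem_exits.2 ⟨h1, ?_⟩, by simp⟩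
      rwa [sub_add_sub_cancel]
    · rintro ⟨a, ha, rfl⟩
      rw [mem_exits] at ha
      simp only [addRightEmbedding_apply, add_sub_cancel_right]
      refine ⟨ha.1, ?_⟩
      rw [add_sub_assoc]
      exact ha.2
  have e2 : tr A h' \ tr A h = (exits A (h' - h)).map (addRightEmbedding h') := by
    ext x
    rw [mem_sdiff, mem_tr, mem_tr, mem_map]
    constructor
    · rintro ⟨h1, h2⟩
      refine ⟨x - h', mem_exits.2 ⟨h1, ?_⟩, by simp⟩
      rwa [sub_add_sub_cancel]
    · rintro ⟨a, ha, rfl⟩
      rw [mem_exits] at ha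
      simp only [addRightEmbedding_apply, add_sub_cancel_right]
      refine ⟨ha.1, ?_⟩
      rw [add_sub_assoc]
      exact ha.2
  rw [symmDiff_def, sup_eq_union, card_union_of_disjoint disjoint_sdiff_sdiff, e1, e2, card_map,
    card_map]

theorem tr_symmDiff (A B : Finset G) (h : G) :
    symmDiff (tr A h) (tr B h) = tr (symmDiff A B) h := by
  ext x
  simp only [mem_symmDiff, mem_tr]

/-- passing to an approximating set -/
theorem card_symm_approx (A B : Finset G) (h h' : G) :
    (symmDiff (tr A h) (tr A h')).card ≤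
      (symmDiff (tr B h) (tr B h')).card + 2 * (symmDiff A B).card := by
  have hsub : symmDiff (tr A h) (tr A h') ⊆
      symmDiff (tr B h) (tr B h') ∪ (tr (symmDiff A B) h ∪ tr (symmDiff A B) h') := by
    rw [← tr_symmDiff, ← tr_symmDiff]
    intro x
    simp only [mem_symmDiff, mem_union]
    tauto
  calc _ ≤ _ := card_le_card hsub
    _ ≤ _ := card_union_le _ _
    _ ≤ _ := Nat.add_le_add_left (card_union_le _ _) _
    _ = _ := by rw [card_tr, card_tr]; ring

/-- **Separated translates.** -/
theorem separated {A B X H : Finset G} {D d : ℕ} (hd : 1 ≤ d) (hH : 1 < H.card)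
    (hX : ∀ h ∈ H, ∀ b ∈ B, b + h ∈ X) (hV : TransVC H B d)
    (hsep : ∀ h ∈ H, ∀ h' ∈ H, h ≠ h' →
      D + 2 * (symmDiff A B).card ≤ (symmDiff (tr A h) (tr A h')).card) :
    (D : ℝ) ≤ 20 * (1 + Real.log H.card / d) * (H.card : ℝ) ^ (-(1 / d : ℝ)) * X.card := by
  have hsubX : ∀ h ∈ H, tr B h ⊆ X := by
    intro h hh x hx
    have := hX h hh _ (mem_tr.1 hx)
    simpa using this
  have hsep' : ∀ h ∈ H, ∀ h' ∈ H, h ≠ h' → D ≤ (X ∩ symmDiff (tr B h) (tr B h')).card := by
    intro h hh h' hh' hne
    have e : X ∩ symmDiff (tr B h) (tr B h') = symmDiff (tr B h) (tr B h') := by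
      rw [inter_eq_right]
      intro x hx
      rw [mem_symmDiff] at hx
      rcases hx with hx | hx
      · exact hsubX h hh hx.1
      · exact hsubX h' hh' hx.1
    rw [e]
    have h1 := hsep h hh h' hh' hne
    have h2 := card_symm_approx A B h h'
    omega
  obtain ⟨h, hh, h', hh', hne⟩ := one_lt_card.1 hH
  have hDX : D ≤ X.card := (hsep' h hh h' hh' hne).trans (card_le_card inter_subset_left)
  rcases Nat.eq_zero_or_pos X.card with hX0 | hX0
  · have : D = 0 := by omega
    rw [this, hX0]
    simp
  refine numeric hd (by omega) hDX hX0 fun m hm => ?_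
  obtain ⟨S, _, hS, hinj⟩ := exists_sample hsep' hm
  exact (card_le_phi hV.vcle S hinj).trans (phi_mono hS d)

/-- **Sets without progressions whose difference is a difference of elements of `H`.** -/
theorem apfree_bound {A B X H : Finset G} {k d : ℕ} (hk : 2 ≤ k) (hd : 1 ≤ d) (hH : H.Nonempty)
    (hAP : ∀ x : G, ∀ h ∈ H, ∀ h' ∈ H, (∀ j < k, x + j • (h - h') ∈ A) → h = h')
    (hAB : 2 * (k - 1) * (symmDiff A B).card ≤ A.card)
    (hX : ∀ h ∈ H, ∀ b ∈ B, b + h ∈ X) (hV : TransVC H B d) :
    (A.card : ℝ) ≤ 20 * (k - 1) * (1 + Real.log H.card / d) * (H.card : ℝ) ^ (-(1 / d : ℝ)) *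
      X.card := by
  have hk1 : (1 : ℝ) ≤ (k : ℝ) - 1 := by
    have : (2 : ℝ) ≤ k := by exact_mod_cast hk
    linarith
  by_cases hH1 : H.card ≤ 1
  · -- one translate
    have hHc : H.card = 1 := le_antisymm hH1 hH.card_pos
    obtain ⟨h, hh⟩ := hH
    have h1 : B.card ≤ X.card := by
      rw [← card_tr B h]
      apply card_le_card
      intro x hx
      have := hX h hh _ (mem_tr.1 hx)
      simpa using this
    have h2 : A.card ≤ B.card + (symmDiff A B).card := by
      have hsub : A ⊆ B ∪ symmDiff A B := by
        intro x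
        simp only [mem_symmDiff, mem_union]
        tauto
      exact (card_le_card hsub).trans (card_union_le _ _)
    have h3 : 2 * (symmDiff A B).card ≤ A.card := by
      refine le_trans ?_ hAB
      have : 1 ≤ k - 1 := by omega
      nlinarith
    have h4 : A.card ≤ 2 * X.card := by omega
    have h5 : (A.card : ℝ) ≤ 2 * X.card := by exact_mod_cast h4
    rw [hHc]
    simp only [Nat.cast_one, Real.log_one, zero_div, add_zero, Real.one_rpow, mul_one]
    have hx0 : (0 : ℝ) ≤ X.card := Nat.cast_nonneg _
    nlinarith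
  push Not at hH1
  have hexit : ∀ h ∈ H, ∀ h' ∈ H, h ≠ h' → A.card ≤ (k - 1) * (exits A (h - h')).card := by
    intro h hh h' hh' hne
    have h1 := card_fail A k (h - h')
    have h2 : (A.filter fun x => ¬ ∀ j < k, x + j • (h - h') ∈ A) = A := by
      rw [filter_eq_self]
      intro x _ hcon
      exact hne (hAP x h hh h' hh' hcon)
    rwa [h2] at h1
  -- the separation
  set D : ℕ := (A.card + (k - 2)) / (k - 1) with hD
  have hk0 : 0 < k - 1 := by omega
  have hD1 : A.card ≤ (k - 1) * D := by
    have h1 := Nat.div_add_mod (A.card + (k - 2)) (k - 1)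
    have h2 := Nat.mod_lt (A.card + (k - 2)) hk0
    rw [← hD] at h1
    omega
  have hD2 : ∀ z : ℕ, A.card ≤ (k - 1) * z → D ≤ z := by
    intro z hz
    rw [hD]
    apply Nat.le_of_lt_succ
    rw [Nat.div_lt_iff_lt_mul hk0]
    have : (z + 1) * (k - 1) = (k - 1) * z + (k - 1) := by ring
    show A.card + (k - 2) < (z + 1) * (k - 1)
    omega
  have hmain := separated (A := A) (D := D) hd hH1 hX hV ?_
  · have h1 : (A.card : ℝ) ≤ (k - 1) * D := by
      have : ((k - 1 : ℕ) : ℝ) = k - 1 := by
        rw [Nat.cast_sub (by omega), Nat.cast_one]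
      rw [← this]
      exact_mod_cast hD1
    calc (A.card : ℝ) ≤ (k - 1) * D := h1
      _ ≤ (k - 1) * (20 * (1 + Real.log H.card / d) * (H.card : ℝ) ^ (-(1 / d : ℝ)) * X.card) :=
          mul_le_mul_of_nonneg_left hmain (by linarith)
      _ = _ := by ring
  · intro h hh h' hh' hne
    rw [card_symm_tr]
    have h1 := hexit h hh h' hh' hne
    have h2 := hexit h' hh' h hh hne.symm
    have h3 : D + 2 * (symmDiff A B).card ≤
        (exits A (h - h')).card + (exits A (h' - h)).card := by
      have h4 : D ≤ (exits A (h - h')).card + (exits A (h' - h)).card -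
          2 * (symmDiff A B).card := by
        apply hD2
        rw [Nat.mul_sub, Nat.mul_add]
        have e : (k - 1) * (2 * (symmDiff A B).card) = 2 * (k - 1) * (symmDiff A B).card := by ring
        rw [e]
        omega
      have h5 : 2 * (symmDiff A B).card ≤
          (exits A (h - h')).card + (exits A (h' - h)).card := by
        have e : (k - 1) * (2 * (symmDiff A B).card) = 2 * (k - 1) * (symmDiff A B).card := by ring
        have h6 : (k - 1) * (2 * (symmDiff A B).card) ≤
            (k - 1) * ((exits A (h - h')).card + (exits A (h' - h)).card) := by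
          rw [e, Nat.mul_add]
          omega
        exact Nat.le_of_mul_le_mul_left h6 hk0
      omega
    exact h3

/-- the number of exits is symmetric -/
theorem card_exits_neg (A : Finset G) (y : G) : (exits A (-y)).card = (exits A y).card := by
  have h1 : (exits A y).card + (A.filter fun a => a + y ∈ A).card = A.card := by
    rw [exits, add_comm]
    exact card_filter_add_card_filter_not (s := A) fun a => a + y ∈ A
  have h2 : (exits A (-y)).card + (A.filter fun a => a + -y ∈ A).card = A.card := by
    rw [exits, add_comm]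
    exact card_filter_add_card_filter_not (s := A) fun a => a + -y ∈ A
  have h3 : (A.filter fun a => a + -y ∈ A).card = (A.filter fun a => a + y ∈ A).card := by
    symm
    apply card_bij (fun a _ => a + y)
    · intro a ha
      rw [mem_filter] at ha ⊢
      exact ⟨ha.2, by simpa using ha.1⟩
    · intro a _ b _ hab
      exact add_right_cancel hab
    · intro b hb
      rw [mem_filter] at hb
      exact ⟨b + -y, mem_filter.2 ⟨hb.2, by simpa using hb.1⟩, by simp⟩
  omega

/-- **Popular differences.** -/
theorem popular [Fintype G] {A B : Finset G} {k d : ℕ} (hk : 2 ≤ k) (hd : 1 ≤ d)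
    (hA : A.Nonempty) {η : ℝ} (hη : 0 < η) (hη1 : η ≤ 1) (hV : TransVC univ B d)
    (hAB : 2 * ((k : ℝ) - 1) * (symmDiff A B).card ≤ η * A.card) :
    (Fintype.card G : ℝ) ≤
      (40 * ((k : ℝ) - 1) * Fintype.card G / (η * A.card) *
        Real.log (40 * ((k : ℝ) - 1) * Fintype.card G / (η * A.card))) ^ d *
      ((univ.filter fun y : G =>
        (1 - η) * (A.card : ℝ) ≤ ((A.filter fun x => ∀ j < k, x + j • y ∈ A).card : ℝ)).card : ℝ) := by
  classical
  set a : ℝ := 40 * ((k : ℝ) - 1) * Fintype.card G / (η * A.card) with ha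
  set R := univ.filter fun y : G =>
    (1 - η) * (A.card : ℝ) ≤ ((A.filter fun x => ∀ j < k, x + j • y ∈ A).card : ℝ) with hR
  have hk1 : (1 : ℝ) ≤ (k : ℝ) - 1 := by
    have : (2 : ℝ) ≤ k := by exact_mod_cast hk
    linarith
  have hkc : ((k - 1 : ℕ) : ℝ) = (k : ℝ) - 1 := by rw [Nat.cast_sub (by omega), Nat.cast_one]
  have hA0 : (0 : ℝ) < A.card := by exact_mod_cast hA.card_pos
  have hAG : (A.card : ℝ) ≤ Fintype.card G := by exact_mod_cast card_le_univ A
  have hG0 : (0 : ℝ) < Fintype.card G := lt_of_lt_of_le hA0 hAG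
  have ha40 : 40 ≤ a := by
    rw [ha, le_div_iff₀ (by positivity)]
    have h1 : η * (A.card : ℝ) ≤ 1 * Fintype.card G := mul_le_mul hη1 hAG hA0.le (by norm_num)
    nlinarith
  have hla : 1 ≤ Real.log a := by
    rw [Real.le_log_iff_exp_le (by linarith)]
    have := Real.exp_one_lt_d9
    linarith
  have hal : 1 ≤ a * Real.log a := by nlinarith
  -- good differences
  let R' : Finset G := univ.filter fun y =>
    ((k : ℝ) - 1) * ((exits A y).card : ℝ) ≤ η * A.card
  have hR' : R' ⊆ R := by
    intro y hy
    have hy1 := (mem_filter.1 hy).2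
    rw [hR, mem_filter]
    refine ⟨mem_univ _, ?_⟩
    have h1 := card_fail A k y
    have h2 : (A.filter fun x => ∀ j < k, x + j • y ∈ A).card +
        (A.filter fun x => ¬ ∀ j < k, x + j • y ∈ A).card = A.card :=
      card_filter_add_card_filter_not (s := A) _
    have h3 : ((A.filter fun x => ∀ j < k, x + j • y ∈ A).card : ℝ) +
        ((A.filter fun x => ¬ ∀ j < k, x + j • y ∈ A).card : ℝ) = A.card := by exact_mod_cast h2
    have h4 : ((A.filter fun x => ¬ ∀ j < k, x + j • y ∈ A).card : ℝ) ≤
        ((k : ℝ) - 1) * ((exits A y).card : ℝ) := by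
      rw [← hkc]
      exact_mod_cast h1
    linarith
  have hsymm : ∀ y, y ∈ R' → -y ∈ R' := by
    intro y hy
    simp only [R', mem_filter, mem_univ, true_and] at hy ⊢
    rwa [card_exits_neg]
  have h0 : (0 : G) ∈ R' := by
    simp only [R', mem_filter, mem_univ, true_and]
    have : exits A 0 = ∅ := by
      rw [exits, filter_eq_empty_iff]
      intro x hx
      simpa using hx
    rw [this]
    simp only [card_empty, Nat.cast_zero, mul_zero]
    positivity
  -- a maximal separated set
  let Q : Finset (Finset G) := univ.filter fun C => ∀ h ∈ C, ∀ h' ∈ C, h ≠ h' → h - h' ∉ R'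
  have hQ : Q.Nonempty := ⟨∅, by simp [Q]⟩
  obtain ⟨C, hCQ, hCmax⟩ := exists_max_image Q card hQ
  have hC := (mem_filter.1 hCQ).2
  have hcover : (univ : Finset G) ⊆ (C ×ˢ R').image fun q => q.1 + q.2 := by
    intro g _
    rw [mem_image]
    by_cases hg : g ∈ C
    · exact ⟨(g, 0), mem_product.2 ⟨hg, h0⟩, by simp⟩
    have h1 : ¬ (insert g C ∈ Q) := by
      intro hcon
      have := hCmax _ hcon
      rw [card_insert_of_notMem hg] at this
      omega
    have h2 : ∃ h ∈ C, g - h ∈ R' := by
      by_contra hcon
      push Not at hcon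
      apply h1
      simp only [Q, mem_filter, mem_univ, true_and]
      intro h hh h' hh' hne
      rw [mem_insert] at hh hh'
      rcases hh with rfl | hh
      · rcases hh' with rfl | hh'
        · exact absurd rfl hne
        · exact hcon _ hh'
      · rcases hh' with rfl | hh'
        · intro hx
          have := hsymm _ hx
          rw [neg_sub] at this
          exact hcon _ hh this
        · exact hC _ hh _ hh' hne
    obtain ⟨h, hh, h3⟩ := h2
    exact ⟨(h, g - h), mem_product.2 ⟨hh, h3⟩, by simp⟩
  have hcard : Fintype.card G ≤ C.card * R'.card := by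
    have := card_le_card hcover
    rw [card_univ] at this
    refine this.trans (card_image_le.trans ?_)
    rw [card_product]
  have hcard' : (Fintype.card G : ℝ) ≤ C.card * R'.card := by exact_mod_cast hcard
  have hRR : (R'.card : ℝ) ≤ R.card := by exact_mod_cast card_le_card hR'
  -- the number of separated translates
  have hCb : (C.card : ℝ) ≤ (a * Real.log a) ^ d := by
    by_cases hC1 : C.card ≤ 1
    · calc (C.card : ℝ) ≤ 1 := by exact_mod_cast hC1
        _ ≤ _ := one_le_pow₀ hal
    push Not at hC1
    set D : ℕ := ⌈η * (A.card : ℝ) / ((k : ℝ) - 1)⌉₊ with hD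
    have hmain := separated (A := A) (B := B) (X := univ) (H := C) (D := D) hd hC1
      (fun _ _ _ _ => mem_univ _) (fun S hS => hV S fun T hT => by
        obtain ⟨h, _, hh⟩ := hS T hT
        exact ⟨h, mem_univ _, hh⟩) ?_
    · have hD1 : η * (A.card : ℝ) / ((k : ℝ) - 1) ≤ D := Nat.le_ceil _
      have hd' : (1 : ℝ) ≤ d := by exact_mod_cast hd
      have hC0 : (1 : ℝ) ≤ C.card := by exact_mod_cast hC1.le
      set r : ℝ := (C.card : ℝ) ^ (1 / d : ℝ) with hr
      have hr0 : 0 < r := by positivity
      have hrd : r ^ d = C.card := by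
        rw [hr, ← Real.rpow_natCast, ← Real.rpow_mul (by positivity)]
        have : (1 / (d : ℝ)) * (d : ℕ) = 1 := by field_simp
        rw [this, Real.rpow_one]
      have hlr : Real.log C.card / d = Real.log r := by
        rw [← hrd, Real.log_pow]
        field_simp
      have hneg : (C.card : ℝ) ^ (-(1 / d : ℝ)) = r⁻¹ := by
        rw [hr, Real.rpow_neg (by positivity)]
      rw [hlr, hneg, card_univ] at hmain
      have h1 : η * (A.card : ℝ) / ((k : ℝ) - 1) ≤ 20 * (1 + Real.log r) * r⁻¹ * Fintype.card G :=
        hD1.trans hmain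
      have h2 : η * (A.card : ℝ) * r ≤
          20 * (1 + Real.log r) * Fintype.card G * ((k : ℝ) - 1) := by
        rw [div_le_iff₀ (by linarith)] at h1
        have h3 := mul_le_mul_of_nonneg_right h1 hr0.le
        refine h3.trans (le_of_eq ?_)
        field_simp
      have h3 : r ≤ a / 2 * (1 + Real.log r) := by
        rw [ha]
        have e : 40 * ((k : ℝ) - 1) * Fintype.card G / (η * A.card) / 2 * (1 + Real.log r) =
            (20 * (1 + Real.log r) * Fintype.card G * ((k : ℝ) - 1)) / (η * A.card) := by
          field_simp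
          ring
        rw [e, le_div_iff₀ (by positivity)]
        linarith
      have h4 : Real.log r ≤ r / a + Real.log a - 1 := by
        have h5 := Real.log_le_sub_one_of_pos (by positivity : 0 < r / a)
        rw [Real.log_div (by positivity) (by positivity)] at h5
        linarith
      have h6 : r ≤ a * Real.log a := by
        have h7 : a / 2 * (1 + Real.log r) ≤ a / 2 * (1 + (r / a + Real.log a - 1)) :=
          mul_le_mul_of_nonneg_left (by linarith) (by linarith)
        have h8 : a / 2 * (1 + (r / a + Real.log a - 1)) = r / 2 + a * Real.log a / 2 := by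
          field_simp
          ring
        linarith
      rw [← hrd]
      exact pow_le_pow_left₀ hr0.le h6 d
    · intro h hh h' hh' hne
      rw [card_symm_tr, ← neg_sub h h', card_exits_neg]
      have h1 := hC h hh h' hh' hne
      simp only [R', mem_filter, mem_univ, true_and, not_le] at h1
      have h2 : η * (A.card : ℝ) / ((k : ℝ) - 1) <
          ((exits A (h - h')).card : ℝ) := by
        rw [div_lt_iff₀ (by linarith)]
        linarith
      have h3 : 2 * ((symmDiff A B).card : ℝ) ≤ η * (A.card : ℝ) / ((k : ℝ) - 1) := by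
        rw [le_div_iff₀ (by linarith)]
        linarith
      have h4 : 2 * (symmDiff A B).card ≤ (exits A (h - h')).card := by
        have : ((2 * (symmDiff A B).card : ℕ) : ℝ) ≤ ((exits A (h - h')).card : ℝ) := by
          push_cast
          linarith
        exact_mod_cast this
      have h5 : D ≤ (exits A (h - h')).card := by
        rw [hD]
        exact Nat.ceil_le.2 h2.le
      omega
  calc (Fintype.card G : ℝ) ≤ C.card * R'.card := hcard'
    _ ≤ (a * Real.log a) ^ d * R.card :=
        mul_le_mul hCb hRR (Nat.cast_nonneg _) (by positivity)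

end group

end Pool.Agent.R740.BVC
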