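import Pool.Agent.R740.BVC2

set_option autoImplicit false

/-!
# Progression-free sets of bounded VC dimension: a large example
-/

namespace Pool.Agent.R740.BVC

open Finset

theorem sidon_vc {G : Type} [AddCommGroup G] [DecidableEq G] {H A : Finset G}
    (hA : ∀ a ∈ A, ∀ b ∈ A, ∀ c ∈ A, ∀ e ∈ A, a - b = c - e → a = b ∨ a = c) :
    TransVC H A 2 := by
  intro S hS
  by_contra hcon
  push Not at hcon
  obtain ⟨s, t, u, hs, ht, hu, hst, hsu, htu⟩ := two_lt_card_iff.1 hcon
  obtain ⟨h, _, h1⟩ := hS S (Subset.refl S)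
  obtain ⟨h', _, h2⟩ := hS (S.erase u) (erase_subset _ _)
  have a1 := (h1 s hs).1 hs
  have a2 := (h1 t ht).1 ht
  have a3 := (h1 u hu).1 hu
  have b1 := (h2 s hs).1 (mem_erase.2 ⟨hsu, hs⟩)
  have b2 := (h2 t ht).1 (mem_erase.2 ⟨htu, ht⟩)
  have b3 : u - h' ∉ A := fun h => (mem_erase.1 ((h2 u hu).2 h)).1 rfl
  rcases hA _ a1 _ a2 _ b1 _ b2 (by abel) with h3 | h3
  · exact hst (sub_left_injective h3)
  · have : h = h' := by
      have := sub_right_injective h3
      exact this
    rw [this] at a3
    exact b3 a3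

theorem example_two (p m : ℕ) [hp : Fact p.Prime] (hp2 : p ≠ 2) (hm : m ≠ 0) :
    ∃ A : Finset (Fin (2 * m) → ZMod p),
      (∀ x y : Fin (2 * m) → ZMod p, (∀ j < 3, x + j • y ∈ A) → y = 0) ∧
      TransVC univ A 2 ∧ A.card = p ^ m := by
  classical
  let F := GaloisField p m
  have : Fintype F := Fintype.ofFinite F
  have hfin : Module.finrank (ZMod p) F = m := GaloisField.finrank p hm
  have hcardF : Fintype.card F = p ^ m := by
    rw [← Nat.card_eq_fintype_card]
    exact GaloisField.card p m hm
  have h2 : (2 : F) ≠ 0 := by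
    intro h
    have h3 : ((2 : ℕ) : F) = 0 := by exact_mod_cast h
    rw [CharP.cast_eq_zero_iff F p 2] at h3
    exact hp2 ((Nat.prime_dvd_prime_iff_eq hp.out Nat.prime_two).1 h3)
  have hfr : Module.finrank (ZMod p) (F × F) =
      Module.finrank (ZMod p) (Fin (2 * m) → ZMod p) := by
    rw [Module.finrank_prod, hfin, Module.finrank_fin_fun]
    ring
  let φ : (F × F) ≃ₗ[ZMod p] (Fin (2 * m) → ZMod p) := LinearEquiv.ofFinrankEq _ _ hfr
  let A : Finset (Fin (2 * m) → ZMod p) := univ.image fun x : F => φ (x, x ^ 2)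
  have hmem : ∀ v, v ∈ A ↔ (φ.symm v).2 = (φ.symm v).1 ^ 2 := by
    intro v
    constructor
    · intro hv
      obtain ⟨x, _, rfl⟩ := mem_image.1 hv
      simp
    · intro hv
      refine mem_image.2 ⟨(φ.symm v).1, mem_univ _, ?_⟩
      rw [← hv]
      exact φ.apply_symm_apply v
  refine ⟨A, ?_, ?_, ?_⟩
  · intro x y h
    have a0 := (hmem _).1 (h 0 (by norm_num))
    have a1 := (hmem _).1 (h 1 (by norm_num))
    have a2 := (hmem _).1 (h 2 (by norm_num))
    simp only [zero_smul, add_zero, one_smul, two_smul, map_add, Prod.fst_add, Prod.snd_add] at a0 a1 a2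
    set a := (φ.symm x).1
    set b := (φ.symm x).2
    set c := (φ.symm y).1 with hc
    set e := (φ.symm y).2 with he
    have h3 : 2 * c ^ 2 = 0 := by linear_combination -a0 + 2 * a1 - a2
    have h4 : c = 0 := by
      have := (mul_eq_zero.1 h3).resolve_left h2
      exact pow_eq_zero_iff (two_ne_zero) |>.1 this
    have h5 : e = 0 := by
      rw [h4] at a1
      linear_combination a1 - a0
    have h6 : φ.symm y = 0 := Prod.ext h4 h5
    exact (LinearEquiv.map_eq_zero_iff φ.symm).1 h6
  · apply sidon_vc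
    intro a ha b hb c hc e he h
    rw [hmem] at ha hb hc he
    have h1 := congrArg (fun v => (φ.symm v).1) h
    have h3 := congrArg (fun v => (φ.symm v).2) h
    simp only [map_sub, Prod.fst_sub, Prod.snd_sub] at h1 h3
    by_cases hab : (φ.symm a).1 = (φ.symm b).1
    · left
      apply φ.symm.injective
      refine Prod.ext hab ?_
      rw [ha, hb, hab]
    · right
      apply φ.symm.injective
      have h4 : (φ.symm a).1 = (φ.symm c).1 := by
        have h5 : ((φ.symm a).1 - (φ.symm b).1) * ((φ.symm a).1 + (φ.symm b).1) =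
            ((φ.symm a).1 - (φ.symm b).1) * ((φ.symm c).1 + (φ.symm e).1) := by
          rw [ha, hb, hc, he] at h3
          linear_combination h3 - ((φ.symm c).1 + (φ.symm e).1) * h1
        have h6 := mul_left_cancel₀ (sub_ne_zero.2 hab) h5
        have h7 : 2 * (φ.symm a).1 = 2 * (φ.symm c).1 := by linear_combination h6 + h1
        exact mul_left_cancel₀ h2 h7
      refine Prod.ext h4 ?_
      rw [ha, hc, h4]
  · rw [card_image_of_injective, card_univ, hcardF]
    intro x y hxy
    have := φ.injective hxy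
    exact congrArg Prod.fst this

end Pool.Agent.R740.BVC
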