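import Pool.Agent.R740.BVC3

set_option autoImplicit false

/-!
# Progression-free sets of bounded VC dimension: integers
-/

namespace Pool.Agent.R740.BVC

open Finset

/-- every subset of `S` is cut out of `S` by a translate of `B` -/
def Shatters (B S : Finset ℤ) : Prop := ∀ T ⊆ S, ∃ h : ℤ, ∀ s ∈ S, s ∈ T ↔ s - h ∈ B

/-- no nontrivial `k`-term progression -/
def APFree (k : ℕ) (A : Finset ℤ) : Prop := ∀ x y : ℤ, (∀ j < k, x + j * y ∈ A) → y = 0

theorem Shatters.card_le {B S : Finset ℤ} (h : Shatters B S) : S.card ≤ B.card := by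
  obtain ⟨g, hg⟩ := h S (Subset.refl S)
  calc S.card = (S.image fun s => s - g).card :=
        (card_image_of_injective _ sub_left_injective).symm
    _ ≤ B.card := by
        apply Finset.card_le_card
        intro x hx
        obtain ⟨s, hs, rfl⟩ := mem_image.1 hx
        exact (hg s hs).1 hs

/-- the basic bound in an interval -/
theorem int_bound {A B : Finset ℤ} {k d N : ℕ} (hk : 2 ≤ k) (hd : 1 ≤ d) (hN : 1 ≤ N)
    (hAP : APFree k A) (hAB : 2 * (k - 1) * (symmDiff A B).card ≤ A.card)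
    (hBN : B ⊆ Icc 1 (N : ℤ)) (hV : ∀ S, Shatters B S → S.card ≤ d) :
    (A.card : ℝ) ≤ 40 * (k - 1) * (1 + Real.log N / d) * (N : ℝ) ^ (1 - 1 / d : ℝ) := by
  have hk1 : (1 : ℝ) ≤ (k : ℝ) - 1 := by
    have : (2 : ℝ) ≤ k := by exact_mod_cast hk
    linarith
  have hN1 : (1 : ℝ) ≤ N := by exact_mod_cast hN
  have hH : (Icc 0 ((N : ℤ) - 1)).card = N := by
    rw [Int.card_Icc]
    omega
  have hX : (Icc 1 (2 * (N : ℤ))).card = 2 * N := by
    rw [Int.card_Icc]
    omega
  have h := apfree_bound (A := A) (B := B) (H := Icc 0 ((N : ℤ) - 1)) (X := Icc 1 (2 * (N : ℤ)))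
    (k := k) (d := d) hk hd (by rw [← card_pos, hH]; omega) ?_ hAB ?_ ?_
  · rw [hH, hX] at h
    refine h.trans (le_of_eq ?_)
    have e : (N : ℝ) ^ (1 - 1 / d : ℝ) = (N : ℝ) ^ (-(1 / d : ℝ)) * N := by
      rw [sub_eq_add_neg, add_comm, Real.rpow_add (by linarith), Real.rpow_one]
    rw [e]
    push_cast
    ring
  · intro x g _ g' _ hj
    have := hAP x (g - g') fun j hj' => by
      have := hj j hj'
      rwa [nsmul_eq_mul] at this
    exact sub_eq_zero.1 this
  · intro g hg b hb
    have h1 := mem_Icc.1 (hBN hb)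
    rw [mem_Icc] at hg ⊢
    constructor <;> omega
  · intro S hS
    apply hV
    intro T hT
    obtain ⟨g, _, hg⟩ := hS T hT
    exact ⟨g, hg⟩

/-- a large shattered set -/
theorem int_shatter {A B : Finset ℤ} {k N : ℕ} (hk : 2 ≤ k) (hA : A.Nonempty)
    (hAN : A ⊆ Icc 1 (N : ℤ))
    (hAP : APFree k A) (hAB : 2 * (k - 1) * (symmDiff A B).card ≤ A.card)
    (hBN : B ⊆ Icc 1 (N : ℤ)) :
    ∃ S, Shatters B S ∧
      Real.log N ≤ 2 * (S.card : ℝ) * Real.log (80 * ((k : ℝ) - 1) * N / A.card) := by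
  classical
  have hk1 : (1 : ℝ) ≤ (k : ℝ) - 1 := by
    have : (2 : ℝ) ≤ k := by exact_mod_cast hk
    linarith
  have hAcard : A.card ≤ N := by
    have := card_le_card hAN
    rw [Int.card_Icc] at this
    omega
  have hA0 : 0 < A.card := hA.card_pos
  have hN : 1 ≤ N := by omega
  have hN1 : (1 : ℝ) ≤ N := by exact_mod_cast hN
  have hA0' : (0 : ℝ) < A.card := by exact_mod_cast hA0
  have hAN' : (A.card : ℝ) ≤ N := by exact_mod_cast hAcard
  -- the VC dimension
  have hex : ∃ d, (∃ S, Shatters B S ∧ S.card = d) ∧ ∀ S, Shatters B S → S.card ≤ d := by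
    have hbdd : ∀ n, (∃ S, Shatters B S ∧ S.card = n) → n ≤ B.card := by
      rintro n ⟨S, hS, rfl⟩
      exact hS.card_le
    have h0 : ∃ S, Shatters B S ∧ S.card = 0 := by
      refine ⟨∅, fun T hT => ⟨0, fun s hs => absurd hs (notMem_empty s)⟩, rfl⟩
    refine ⟨Nat.findGreatest (fun n => ∃ S, Shatters B S ∧ S.card = n) B.card, ?_, ?_⟩
    · exact Nat.findGreatest_spec (P := fun n => ∃ S, Shatters B S ∧ S.card = n)
        (Nat.zero_le _) h0
    · intro S hS
      exact Nat.le_findGreatest (hS.card_le) ⟨S, hS, rfl⟩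
  obtain ⟨d, ⟨S, hS, hSd⟩, hd⟩ := hex
  -- it is at least one
  have hB : B.Nonempty := by
    rw [nonempty_iff_ne_empty]
    rintro rfl
    have h1 : symmDiff A ∅ = A := by simp
    rw [h1] at hAB
    have : 1 ≤ k - 1 := by omega
    nlinarith
  have hd1 : 1 ≤ d := by
    obtain ⟨b, hb⟩ := hB
    have : Shatters B {b} := by
      intro T hT
      rcases subset_singleton_iff.1 hT with rfl | rfl
      · refine ⟨b - (N + 1), fun s hs => ?_⟩
        rw [mem_singleton] at hs
        subst hs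
        simp only [notMem_empty, sub_sub_cancel, false_iff]
        intro hcon
        have := mem_Icc.1 (hBN hcon)
        omega
      · refine ⟨0, fun s hs => ?_⟩
        rw [mem_singleton] at hs
        subst hs
        simpa using hb
    simpa using hd _ this
  refine ⟨S, hS, ?_⟩
  rw [hSd]
  have hmain := int_bound hk hd1 hN hAP hAB hBN hd
  have hd' : (1 : ℝ) ≤ d := by exact_mod_cast hd1
  set t : ℝ := Real.log N / d with ht
  have ht0 : 0 ≤ t := div_nonneg (Real.log_nonneg hN1) (by linarith)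
  have e1 : (N : ℝ) ^ (1 - 1 / d : ℝ) = N * Real.exp (-t) := by
    rw [sub_eq_add_neg, Real.rpow_add (by linarith), Real.rpow_one, Real.rpow_def_of_pos (by linarith)]
    congr 2
    rw [ht]
    ring
  rw [e1] at hmain
  have h2 : 1 + t ≤ 2 * Real.exp (t / 2) := by
    have := Real.add_one_le_exp (t / 2)
    linarith
  have h3 : Real.exp (t / 2) * Real.exp (-t) = Real.exp (-(t / 2)) := by
    rw [← Real.exp_add]
    congr 1
    ring
  have h4 : (A.card : ℝ) ≤ 80 * ((k : ℝ) - 1) * N * Real.exp (-(t / 2)) := by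
    calc (A.card : ℝ) ≤ 40 * (k - 1) * (1 + t) * (N * Real.exp (-t)) := hmain
      _ ≤ 40 * (k - 1) * (2 * Real.exp (t / 2)) * (N * Real.exp (-t)) := by
          apply mul_le_mul_of_nonneg_right _ (by positivity)
          exact mul_le_mul_of_nonneg_left h2 (by linarith)
      _ = 80 * ((k : ℝ) - 1) * N * (Real.exp (t / 2) * Real.exp (-t)) := by ring
      _ = _ := by rw [h3]
  have h5 : Real.exp (t / 2) ≤ 80 * ((k : ℝ) - 1) * N / A.card := by
    rw [le_div_iff₀ hA0']
    calc Real.exp (t / 2) * A.card ≤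
        Real.exp (t / 2) * (80 * ((k : ℝ) - 1) * N * Real.exp (-(t / 2))) :=
          mul_le_mul_of_nonneg_left h4 (Real.exp_pos _).le
      _ = 80 * ((k : ℝ) - 1) * N * (Real.exp (t / 2) * Real.exp (-(t / 2))) := by ring
      _ = _ := by rw [← Real.exp_add, add_neg_cancel, Real.exp_zero, mul_one]
  have h6 : t / 2 ≤ Real.log (80 * ((k : ℝ) - 1) * N / A.card) := by
    rw [Real.le_log_iff_exp_le (lt_of_lt_of_le (Real.exp_pos _) h5)]
    exact h5
  have h7 : Real.log N = d * t := by
    rw [ht]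
    field_simp
  rw [h7]
  nlinarith

/-- the largest progression-free sets are at least as large as Behrend's -/
theorem behrend_le {A : Finset ℤ} {k N : ℕ} (hk : 3 ≤ k)
    (hmax : ∀ A' ⊆ Icc 1 (N : ℤ), APFree k A' → A'.card ≤ A.card) :
    (N : ℝ) * Real.exp (-4 * √(Real.log N)) ≤ A.card := by
  classical
  refine Behrend.roth_lower_bound.trans ?_
  obtain ⟨t, ht, htc, htf⟩ := rothNumberNat_spec N
  let A' : Finset ℤ := t.image fun x : ℕ => (x : ℤ) + 1
  have hinj : Function.Injective fun x : ℕ => (x : ℤ) + 1 := by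
    intro x y hxy
    simpa using hxy
  have hc : A'.card = rothNumberNat N := by
    rw [card_image_of_injective _ hinj, htc]
  rw [← hc]
  exact_mod_cast hmax A' (by
    intro x hx
    obtain ⟨y, hy, rfl⟩ := mem_image.1 hx
    have := mem_range.1 (ht hy)
    rw [mem_Icc]
    constructor <;> omega) (by
    intro x y hxy
    obtain ⟨a, ha, ha'⟩ := mem_image.1 (hxy 0 (by omega))
    obtain ⟨b, hb, hb'⟩ := mem_image.1 (hxy 1 (by omega))
    obtain ⟨c, hc, hc'⟩ := mem_image.1 (hxy 2 (by omega))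
    push_cast at ha' hb' hc'
    have h1 : a + c = b + b := by omega
    have h2 : a = b := htf ha hb hc h1
    subst h2
    omega)

/-- A large set of VC dimension at most two without three-term progressions. -/
theorem int_example (p : ℕ) (hp : p.Prime) (hp2 : p ≠ 2) :
    ∃ A ⊆ Icc (1 : ℤ) ((2 * p ^ 2 : ℕ) : ℤ), APFree 3 A ∧ (∀ S, Shatters A S → S.card ≤ 2) ∧
      A.card = p := by
  classical
  have : Fact p.Prime := ⟨hp⟩
  have h2 : (2 : ZMod p) ≠ 0 := by
    intro h
    have h3 : ((2 : ℕ) : ZMod p) = 0 := by exact_mod_cast h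
    rw [ZMod.natCast_eq_zero_iff] at h3
    exact hp2 ((Nat.prime_dvd_prime_iff_eq hp Nat.prime_two).1 h3)
  let f : ℕ → ℤ := fun x => 1 + (x : ℤ) + 2 * p * ((x ^ 2 % p : ℕ) : ℤ)
  let A : Finset ℤ := (range p).image f
  have hmod : ∀ x : ℕ, ((x ^ 2 % p : ℕ) : ZMod p) = (x : ZMod p) ^ 2 := by
    intro x
    rw [ZMod.natCast_mod]
    push_cast
    rfl
  have hlt : ∀ x : ℕ, x ^ 2 % p < p := fun x => Nat.mod_lt _ hp.pos
  -- comparison of sums
  have hsum : ∀ a b c e : ℕ, a < p → b < p → c < p → e < p → f a + f e = f b + f c →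
      a + e = b + c ∧ (a : ZMod p) ^ 2 + (e : ZMod p) ^ 2 = (b : ZMod p) ^ 2 + (c : ZMod p) ^ 2 := by
    intro a b c e ha hb hc he h
    simp only [f] at h
    have h1 : (a + e) + 2 * p * (a ^ 2 % p + e ^ 2 % p) = (b + c) + 2 * p * (b ^ 2 % p + c ^ 2 % p) := by
      have : (((a + e) + 2 * p * (a ^ 2 % p + e ^ 2 % p) : ℕ) : ℤ) =
          (((b + c) + 2 * p * (b ^ 2 % p + c ^ 2 % p) : ℕ) : ℤ) := by
        push_cast
        push_cast at h
        linarith
      exact_mod_cast this
    have h3 : a + e = b + c := by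
      have m1 := congrArg (fun x => x % (2 * p)) h1
      simp only [Nat.add_mul_mod_self_left] at m1
      rwa [Nat.mod_eq_of_lt (by omega), Nat.mod_eq_of_lt (by omega)] at m1
    have h4 : a ^ 2 % p + e ^ 2 % p = b ^ 2 % p + c ^ 2 % p := by
      rw [h3] at h1
      have := Nat.add_left_cancel h1
      exact Nat.eq_of_mul_eq_mul_left (by have := hp.pos; omega) this
    refine ⟨h3, ?_⟩
    have h5 := congrArg (fun x : ℕ => (x : ZMod p)) h4
    simp only [Nat.cast_add, hmod] at h5
    exact h5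
  have hcast : ∀ a b : ℕ, a < p → b < p → (a : ZMod p) = b → a = b := by
    intro a b ha hb h
    have := (ZMod.natCast_eq_natCast_iff' a b p).1 h
    rwa [Nat.mod_eq_of_lt ha, Nat.mod_eq_of_lt hb] at this
  have hsidon : ∀ x ∈ A, ∀ y ∈ A, ∀ z ∈ A, ∀ w ∈ A, x - y = z - w → x = y ∨ x = z := by
    intro x hx y hy z hz w hw h
    obtain ⟨a, ha, rfl⟩ := mem_image.1 hx
    obtain ⟨b, hb, rfl⟩ := mem_image.1 hy
    obtain ⟨c, hc, rfl⟩ := mem_image.1 hz
    obtain ⟨e, he, rfl⟩ := mem_image.1 hw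
    rw [mem_range] at ha hb hc he
    obtain ⟨h1, h3⟩ := hsum a b c e ha hb hc he (by linarith)
    by_cases hab : a = b
    · left; rw [hab]
    · right
      have hab' : (a : ZMod p) - b ≠ 0 := by
        rw [sub_ne_zero]
        exact fun h => hab (hcast a b ha hb h)
      have h4 : (a : ZMod p) + e = b + c := by exact_mod_cast congrArg (fun x : ℕ => (x : ZMod p)) h1
      have h5 : ((a : ZMod p) - b) * ((a : ZMod p) + b) = ((a : ZMod p) - b) * (c + e) := by
        linear_combination h3 - ((c : ZMod p) + e) * h4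
      have h6 := mul_left_cancel₀ hab' h5
      have h7 : (2 : ZMod p) * a = 2 * c := by linear_combination h6 + h4
      rw [hcast a c ha hc (mul_left_cancel₀ h2 h7)]
  refine ⟨A, ?_, ?_, ?_, ?_⟩
  · intro x hx
    obtain ⟨a, ha, rfl⟩ := mem_image.1 hx
    rw [mem_range] at ha
    have := hlt a
    rw [mem_Icc]
    simp only [f]
    have h1 : (0 : ℤ) ≤ 2 * p * ((a ^ 2 % p : ℕ) : ℤ) := by positivity
    have h3 : 2 * p * (a ^ 2 % p) ≤ 2 * p * (p - 1) := Nat.mul_le_mul_left _ (by omega)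
    have h4 : ((2 * p * (a ^ 2 % p) : ℕ) : ℤ) ≤ ((2 * p * (p - 1) : ℕ) : ℤ) := by exact_mod_cast h3
    rw [Nat.cast_mul (2 * p) (p - 1), Nat.cast_sub hp.one_lt.le] at h4
    push_cast at h4 h1 ⊢
    constructor
    · linarith [Int.natCast_nonneg a]
    · have h5 : (a : ℤ) + 1 ≤ p := by exact_mod_cast ha
      have h6 : (1 : ℤ) ≤ p := by exact_mod_cast hp.one_lt.le
      nlinarith
  · intro x y h
    have a0 := h 0 (by norm_num)
    have a1 := h 1 (by norm_num)
    have a2 := h 2 (by norm_num)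
    push_cast at a0 a1 a2
    have := hsidon _ a1 _ a0 _ a2 _ a1 (by ring)
    rcases this with h3 | h3 <;> linarith
  · intro S hS
    have key : ∀ H : Finset ℤ, TransVC H A 2 := fun H => sidon_vc hsidon
    choose g hg using hS
    refine key (S.powerset.attach.image fun T => g T.1 (mem_powerset.1 T.2)) S fun T hT => ?_
    exact ⟨g T hT, mem_image.2 ⟨⟨T, mem_powerset.2 hT⟩, mem_attach _ _, rfl⟩, hg T hT⟩
  · rw [card_image_of_injOn, card_range]
    intro a ha b hb hab
    rw [mem_coe, mem_range] at ha hb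
    have h1 := (hsum a b b a ha hb hb ha (by linarith)).1
    omega

end Pool.Agent.R740.BVC
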